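import Pool.Agent.H92.SF.LUT
import Pool.Agent.H62.HIL.Gen

/-!
# Row UON of sfu_modules: the chain
-/

set_option autoImplicit false

namespace Pool.Agent.H72.SFU

open MvPolynomial
open Pool.Agent.H84.SM (dp cr dt)
open Pool.Agent.H3.SF Pool.Agent.H92.SF

section Lin

variable {κ V : Type} [Field κ] [AddCommGroup V] [Module κ V]

theorem dep (W : Submodule κ V) [Module.Finite κ W] {ι : Type} [Fintype ι] (v : ι → V)
    (hv : ∀ i, v i ∈ W) (hc : Module.finrank κ W < Fintype.card ι) :
    ∃ c : ι → κ, ∑ i, c i • v i = 0 ∧ ∃ i, c i ≠ 0 := by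
  have hdep : ¬ LinearIndependent κ (fun i => (⟨v i, hv i⟩ : W)) := by
    intro h
    have := h.fintype_card_le_finrank
    omega
  rw [Fintype.not_linearIndependent_iff] at hdep
  obtain ⟨c, hc, i0, hi0⟩ := hdep
  refine ⟨c, ?_, i0, hi0⟩
  have h1 := congrArg (Subtype.val) hc
  simpa only [Submodule.coe_sum, Submodule.coe_smul, Submodule.coe_zero] using h1

theorem chain (E1 E0 : Submodule κ V) [Module.Finite κ E1] [Module.Finite κ E0] (f : V →ₗ[κ] V)
    (hf : ∀ y ∈ E0, f y ∈ E1) (r : ℕ)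
    (claim : ∀ v : Fin (r + 1) → V, (∀ i, v i ∈ E1) →
      ∃ b : Fin (r + 1) → κ, (∃ i, b i ≠ 0) ∧ ∃ Y ∈ E0, ∑ i, b i • v i = f Y) :
    Module.finrank κ E1 ≤ Module.finrank κ E0 + r := by
  let g : E0 →ₗ[κ] E1 := (f.domRestrict E0).codRestrict E1 fun y => hf y.1 y.2
  have h1 : Module.finrank κ (LinearMap.range g) ≤ Module.finrank κ E0 :=
    LinearMap.finrank_range_le g
  have h2 : Module.finrank κ (E1 ⧸ LinearMap.range g) ≤ r := by
    by_contra hcon
    push Not at hcon
    obtain ⟨v, hv⟩ := exists_linearIndependent_of_le_finrank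
      (R := κ) (M := E1 ⧸ LinearMap.range g) (Nat.succ_le_of_lt hcon)
    have hV : ∀ i, ∃ w : E1, Submodule.Quotient.mk w = v i := fun i =>
      Submodule.Quotient.mk_surjective _ (v i)
    choose w hw using hV
    obtain ⟨b, ⟨i1, hi1⟩, Y, hY, hbY⟩ := claim (fun i => (w i).1) (fun i => (w i).2)
    have h3 : ∑ i, b i • v i = 0 := by
      have h4 : ∑ i, b i • v i = Submodule.Quotient.mk (∑ i, b i • w i) := by
        rw [← Submodule.mkQ_apply, map_sum]
        refine Finset.sum_congr rfl fun i _ => ?_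
        rw [map_smul, Submodule.mkQ_apply, hw i]
      rw [h4, Submodule.Quotient.mk_eq_zero]
      refine ⟨⟨Y, hY⟩, Subtype.ext ?_⟩
      simp only [Submodule.coe_sum, Submodule.coe_smul]
      exact hbY.symm
    exact hi1 (Fintype.linearIndependent_iff.1 hv b h3 i1)
  have h3 := Submodule.finrank_quotient_add_finrank (LinearMap.range g)
  omega

end Lin

section Cq

variable {F : Type} [Field F]

theorem coeff_cq (c : F) (V : Q2 F) (j : ℕ) : (cq c * V).coeff j = C c * V.coeff j := by
  have h : cq c = Polynomial.C (C c) := rfl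
  rw [h, Polynomial.coeff_C_mul]

theorem coeff_cc (c : F) (V : C3 F) (j : ℕ) (a : Fin 3 →₀ ℕ) :
    ((cc c * V).coeff j).coeff a = c * (V.coeff j).coeff a := by
  have h : cc c = Polynomial.C (C c) := rfl
  rw [h, Polynomial.coeff_C_mul, coeff_C_mul]

theorem smul_kap {k : Type} [Field k] [Algebra k F] {κ : IntermediateField k F} (c : κ)
    (V : Q2 F) : c • V = cq (c : F) * V := by
  refine Polynomial.ext fun j => MvPolynomial.ext _ _ fun a => ?_
  rw [coeff_cq, coeff_C_mul, Polynomial.coeff_smul, MvPolynomial.coeff_smul]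
  rfl

theorem smul_base {k : Type} [Field k] [Algebra k F] (c : k) (V : Q2 F) :
    c • V = cq (algebraMap k F c) * V := by
  refine Polynomial.ext fun j => MvPolynomial.ext _ _ fun a => ?_
  rw [coeff_cq, coeff_C_mul, Polynomial.coeff_smul, MvPolynomial.coeff_smul, Algebra.smul_def]

end Cq

section Data

variable {k F : Type} [Field k] [Field F] [Algebra k F]

theorem tw_cq (u : Fin 3 → F) (dd : Fin 3 → Derivation k F F) (n : ℕ) (τ σ : ℤ) (c : F)
    (V : Q2 F) (hc : Hm k (eu u dd) σ c) (hV : Tw u dd n τ V) :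
    Tw u dd n (σ + τ) (cq c * V) := by
  refine ⟨fun j => ⟨fun h => ?_, fun h => ?_⟩, fun j a => ?_⟩
  · rw [coeff_cq]
    have := (isHomogeneous_C (Fin 2) c).mul ((hV.1 j).1 h)
    rwa [zero_add] at this
  · rw [coeff_cq, (hV.1 j).2 h, mul_zero]
  · have h1 := hV.2 j a
    rw [coeff_cq, coeff_C_mul]
    unfold Hm at *
    rw [Derivation.leibniz, h1, hc]
    simp only [smul_eq_mul]
    push_cast
    ring

theorem cf_cq (u : Fin 3 → F) (dd : Fin 3 → Derivation k F F) (J : MvPolynomial (Fin 3) k)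
    (m : ℕ) (G : F) (c : F) (V : Q2 F) (j : ℕ) (a : Fin 3 →₀ ℕ) :
    cf u dd J m G (cq c * V) j a = c * cf u dd J m G V j a := by
  unfold cf
  rw [map_mul]
  have h : Ps u dd J m G (cq c) = cc c := by
    simp [Ps, Psi, ev2, cq, cc]
  rw [h, coeff_cc]

theorem cf_sum (u : Fin 3 → F) (dd : Fin 3 → Derivation k F F) (J : MvPolynomial (Fin 3) k)
    (m : ℕ) (G : F) {ι : Type} (s : Finset ι) (V : ι → Q2 F) (j : ℕ) (a : Fin 3 →₀ ℕ) :
    cf u dd J m G (∑ i ∈ s, V i) j a = ∑ i ∈ s, cf u dd J m G (V i) j a := by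
  unfold cf
  rw [map_sum, Polynomial.finsetSum_coeff, MvPolynomial.coeff_sum]

theorem itg_X (u : Fin 3 → F) (i : Fin 3) : Itg k u (u i) := by
  have h := ((aeval u : MvPolynomial (Fin 3) k →ₐ[k] F) :
    MvPolynomial (Fin 3) k →+* F).isIntegralElem_map (x := X i)
  simpa [Itg] using h

/-- `u 0 ^ D P (u 1 / u 0)` is integral -/
theorem itg_hom (u : Fin 3 → F) (h0 : u 0 ≠ 0) (P : Polynomial k) (D : ℕ)
    (hD : P.natDegree ≤ D) : Itg k u (u 0 ^ D * Polynomial.aeval (u 1 / u 0) P) := by
  rw [Polynomial.aeval_eq_sum_range, Finset.mul_sum]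
  refine (Bb k u).sum_mem fun i hi => ?_
  have hi' : i ≤ D := by
    have := Finset.mem_range.1 hi
    omega
  have h1 : u 0 ^ D * (P.coeff i • (u 1 / u 0) ^ i) = P.coeff i • (u 1 ^ i * u 0 ^ (D - i)) := by
    rw [mul_smul_comm]
    congr 1
    have h2 : u 0 ^ D = u 0 ^ (D - i) * u 0 ^ i := by
      rw [← pow_add, Nat.sub_add_cancel hi']
    rw [h2, div_pow]
    field_simp
  rw [h1]
  exact (Bb k u).smul_mem ((Bb k u).mul_mem ((Bb k u).pow_mem (itg_X u 1) i)
    ((Bb k u).pow_mem (itg_X u 0) (D - i))) _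

/-- polynomials instead of elements of `k (t)` -/
theorem clear {ι : Type} [Fintype ι] [DecidableEq ι] {t : F} (ht : Transcendental k t)
    (c : ι → IntermediateField.adjoin k {t}) (V : ι → Q2 F) (hV : ∑ i, cq (c i : F) * V i = 0)
    (i0 : ι) (hi0 : c i0 ≠ 0) :
    ∃ P : ι → Polynomial k, ∑ i, cq (Polynomial.aeval t (P i)) * V i = 0 ∧ ∃ i, P i ≠ 0 := by
  have h1 : ∀ i, ∃ r s : Polynomial k, s ≠ 0 ∧
      (c i : F) * Polynomial.aeval t s = Polynomial.aeval t r := by
    intro i
    obtain ⟨r, s, hrs⟩ := (IntermediateField.mem_adjoin_simple_iff k (c i : F)).1 (c i).2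
    by_cases hs : s = 0
    · refine ⟨0, 1, one_ne_zero, ?_⟩
      rw [hrs, hs]
      simp
    · refine ⟨r, s, hs, ?_⟩
      have : Polynomial.aeval t s ≠ 0 := by
        intro h
        exact hs ((transcendental_iff.1 ht) s h)
      rw [hrs]
      field_simp
  choose r s hs hrs using h1
  have hs' : ∀ i, Polynomial.aeval t (s i) ≠ 0 := by
    intro i h
    exact hs i ((transcendental_iff.1 ht) (s i) h)
  have hP : ∀ i, Polynomial.aeval t (r i * ∏ j ∈ Finset.univ.erase i, s j) =
      (∏ j, Polynomial.aeval t (s j)) * (c i : F) := by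
    intro i
    rw [map_mul, map_prod, ← hrs i, ← Finset.mul_prod_erase Finset.univ _ (Finset.mem_univ i)]
    ring
  refine ⟨fun i => r i * ∏ j ∈ Finset.univ.erase i, s j, ?_, i0, ?_⟩
  · have h2 : ∑ i, cq (Polynomial.aeval t (r i * ∏ j ∈ Finset.univ.erase i, s j)) * V i =
        cq (∏ j, Polynomial.aeval t (s j)) * ∑ i, cq (c i : F) * V i := by
      rw [Finset.mul_sum]
      refine Finset.sum_congr rfl fun i _ => ?_
      rw [hP i, map_mul, mul_assoc]
    rw [h2, hV, mul_zero]
  · intro h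
    have h3 := hP i0
    simp only at h
    rw [h, map_zero] at h3
    have h4 : (∏ j, Polynomial.aeval t (s j)) * (c i0 : F) ≠ 0 := by
      refine mul_ne_zero (Finset.prod_ne_zero_iff.2 fun j _ => hs' j) ?_
      intro h5
      exact hi0 (Subtype.ext h5)
    exact h4 h3.symm

/-- division by a power of the variable -/
theorem primitive {ι : Type} [Fintype ι] {t : F} (ht : t ≠ 0) (V : ι → Q2 F) (d : ℕ) :
    ∀ P : ι → Polynomial k, ∑ i, cq (Polynomial.aeval t (P i)) * V i = 0 → (∃ i, P i ≠ 0) →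
      ∑ i, (P i).natDegree ≤ d →
      ∃ P' : ι → Polynomial k, ∑ i, cq (Polynomial.aeval t (P' i)) * V i = 0 ∧
        ∃ i, (P' i).coeff 0 ≠ 0 := by
  induction d with
  | zero =>
    intro P hP hne hd
    obtain ⟨i, hi⟩ := hne
    refine ⟨P, hP, i, ?_⟩
    have h1 : (P i).natDegree = 0 := by
      have := Finset.single_le_sum (f := fun i => (P i).natDegree) (fun _ _ => Nat.zero_le _)
        (Finset.mem_univ i)
      omega
    intro h2
    apply hi
    rw [Polynomial.eq_C_of_natDegree_eq_zero h1, h2, map_zero]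
  | succ d ih =>
    intro P hP hne hd
    by_cases h0 : ∃ i, (P i).coeff 0 ≠ 0
    · exact ⟨P, hP, h0⟩
    push Not at h0
    have hX : ∀ i, P i = (P i).divX * Polynomial.X := by
      intro i
      have h := Polynomial.divX_mul_X_add (P i)
      rw [h0 i, map_zero, add_zero] at h
      exact h.symm
    obtain ⟨i1, hi1⟩ := hne
    refine ih (fun i => (P i).divX) ?_ ⟨i1, ?_⟩ ?_
    · have h1 : cq t * ∑ i, cq (Polynomial.aeval t (P i).divX) * V i = 0 := by
        rw [← hP, Finset.mul_sum]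
        refine Finset.sum_congr rfl fun i _ => ?_
        conv_rhs => rw [hX i]
        rw [map_mul, Polynomial.aeval_X, map_mul]
        ring
      have h2 : cq t⁻¹ * (cq t * ∑ i, cq (Polynomial.aeval t (P i).divX) * V i) = 0 := by
        rw [h1, mul_zero]
      rwa [← mul_assoc, ← map_mul, inv_mul_cancel₀ ht, map_one, one_mul] at h2
    · intro h
      apply hi1
      rw [hX i1, h, zero_mul]
    · have h3 : ∀ i, (P i).divX.natDegree ≤ (P i).natDegree := by
        intro i
        rw [Polynomial.natDegree_divX_eq_natDegree_tsub_one]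
        omega
      have h4 : (P i1).divX.natDegree < (P i1).natDegree := by
        rw [Polynomial.natDegree_divX_eq_natDegree_tsub_one]
        have h5 : 0 < (P i1).natDegree := by
          rcases Nat.eq_zero_or_pos (P i1).natDegree with h6 | h6
          · exfalso
            apply hi1
            rw [Polynomial.eq_C_of_natDegree_eq_zero h6, h0 i1, map_zero]
          · exact h6
        omega
      have h7 : ∑ i, (P i).divX.natDegree < ∑ i, (P i).natDegree :=
        Finset.sum_lt_sum (fun i _ => h3 i) ⟨i1, Finset.mem_univ _, h4⟩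
      omega

end Data

theorem pf_UON (hDAT : T_DAT) (hFIN : T_FIN) (hFRK : T_FRK) : T_UON := by
  classical
  intro k F _ _ _ _ _ u dd δ j0 c0 J m G hB n τ W hWfin hEW
  obtain ⟨-, hu0, -, -, hHu, -, -, -, -, -⟩ := hDAT k F u dd δ j0 c0 J m G hB
  obtain ⟨-, -, -, -, -, htr⟩ := hFRK k F u dd δ j0 c0 J m G hB
  haveI := hFIN k F u dd δ j0 c0 J m G hB n τ
  haveI := hFIN k F u dd δ j0 c0 J m G hB n (τ - 1)
  have ht0 : u 1 / u 0 ≠ 0 := div_ne_zero (hu0 1) (hu0 0)
  -- the claim
  have claim : ∀ (ι : Type) [Fintype ι] (V : ι → Q2 F), (∀ i, V i ∈ E u dd J m G n τ) →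
      Module.finrank (kap k u) W < Fintype.card ι →
      ∃ b : ι → k, (∃ i, b i ≠ 0) ∧ ∃ Y ∈ E u dd J m G n (τ - 1),
        ∑ i, b i • V i = cq (u 1) * Y := by
    intro ι _ V hV hcard
    obtain ⟨c, hc, i0, hi0⟩ := dep W V (fun i => hEW _ (hV i)) hcard
    have hc' : ∑ i, cq (c i : F) * V i = 0 := by
      rw [← hc]
      exact Finset.sum_congr rfl fun i _ => (smul_kap (c i) (V i)).symm
    obtain ⟨P0, hP0, hne0⟩ := clear htr c V hc' i0 hi0
    obtain ⟨P, hP, i1, hi1⟩ := primitive ht0 V _ P0 hP0 hne0 le_rfl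
    refine ⟨fun i => (P i).coeff 0, ⟨i1, hi1⟩, cq (u 1)⁻¹ * ∑ i, (P i).coeff 0 • V i, ?_, ?_⟩
    · have hVs : ∑ i, (P i).coeff 0 • V i ∈ E u dd J m G n τ :=
        Submodule.sum_mem _ fun i _ => Submodule.smul_mem _ _ (hV i)
      have hinv : Hm k (eu u dd) (-1) (u 1)⁻¹ := by
        have h1 := hHu 1
        unfold Hm at *
        have h2 : (eu u dd) ((u 1)⁻¹ * u 1) = 0 := by
          rw [inv_mul_cancel₀ (hu0 1)]
          exact Derivation.map_one_eq_zero _
        rw [Derivation.leibniz, h1] at h2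
        simp only [smul_eq_mul] at h2
        push_cast at h2 ⊢
        have h3 : u 1 * (eu u dd) (u 1)⁻¹ = u 1 * (-1 * (u 1)⁻¹) := by
          have h4 := hu0 1
          field_simp at h2 ⊢
          linear_combination h2
        exact mul_left_cancel₀ (hu0 1) h3
      have htw := tw_cq u dd n τ (-1) (u 1)⁻¹ _ hinv hVs.1
      have e : (-1 : ℤ) + τ = τ - 1 := by ring
      rw [e] at htw
      refine ⟨htw, fun j a => ?_⟩
      change Itg k u (cf u dd J m G (cq (u 1)⁻¹ * ∑ i, (P i).coeff 0 • V i) j a)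
      set x := cf u dd J m G (cq (u 1)⁻¹ * ∑ i, (P i).coeff 0 • V i) j a with hx
      have hx1 : x = (u 1)⁻¹ * cf u dd J m G (∑ i, (P i).coeff 0 • V i) j a := by
        rw [hx, cf_cq]
      have h1 : Itg k u (u 1 * x) := by
        rw [hx1, ← mul_assoc, mul_inv_cancel₀ (hu0 1), one_mul]
        exact hVs.2 j a
      set D : ℕ := ∑ i, ((P i).divX).natDegree with hD
      have hDi : ∀ i, ((P i).divX).natDegree ≤ D := fun i =>
        Finset.single_le_sum (f := fun i => ((P i).divX).natDegree) (fun _ _ => Nat.zero_le _)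
          (Finset.mem_univ i)
      have hsum : cf u dd J m G (∑ i, (P i).coeff 0 • V i) j a =
          - ((u 1 / u 0) * ∑ i, Polynomial.aeval (u 1 / u 0) (P i).divX *
            cf u dd J m G (V i) j a) := by
        have h2 := congrArg (fun Z => cf u dd J m G Z j a) hP
        rw [cf_sum] at h2
        have h3 : cf u dd J m G 0 j a = 0 := by
          unfold cf
          rw [map_zero, Polynomial.coeff_zero, MvPolynomial.coeff_zero]
        rw [h3] at h2
        rw [cf_sum, eq_neg_iff_add_eq_zero, ← h2, Finset.mul_sum, ← Finset.sum_add_distrib]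
        refine Finset.sum_congr rfl fun i _ => ?_
        rw [smul_base, cf_cq, cf_cq]
        conv_rhs => rw [← Polynomial.divX_mul_X_add (P i)]
        rw [map_add, map_mul, Polynomial.aeval_X, Polynomial.aeval_C]
        ring
      have h2 : Itg k u (u 0 ^ (D + 1) * x) := by
        have h3 : u 0 ^ (D + 1) * x = - ∑ i, (u 0 ^ D *
            Polynomial.aeval (u 1 / u 0) (P i).divX) * cf u dd J m G (V i) j a := by
          rw [hx1, hsum]
          have h4 : ∑ i, (u 0 ^ D * Polynomial.aeval (u 1 / u 0) (P i).divX) *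
              cf u dd J m G (V i) j a = u 0 ^ D * ∑ i, Polynomial.aeval (u 1 / u 0) (P i).divX *
              cf u dd J m G (V i) j a := by
            rw [Finset.mul_sum]
            exact Finset.sum_congr rfl fun i _ => by ring
          rw [h4, pow_succ]
          have h5 := hu0 0
          have h6 := hu0 1
          field_simp
        rw [h3]
        refine (Bb k u).neg_mem ((Bb k u).sum_mem fun i _ => ?_)
        exact (Bb k u).mul_mem (itg_hom u (hu0 0) _ D (hDi i)) ((hV i).2 j a)
      have hinj : Function.Injective ((aeval u : MvPolynomial (Fin 3) k →ₐ[k] F) :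
          MvPolynomial (Fin 3) k →+* F) := hB.ind
      refine Pool.Agent.H62.HIL.pf_SAT _ hinj
        (Pool.Agent.H62.HIL.isRelPrime_X (i := (0 : Fin 3)) (j := 1) (by decide) (D + 1) 1)
        (pow_ne_zero _ (MvPolynomial.X_ne_zero _)) (pow_ne_zero _ (MvPolynomial.X_ne_zero _)) ?_ ?_
      · simpa [Itg] using h2
      · simpa [Itg] using h1
    · rw [← mul_assoc, ← map_mul, mul_inv_cancel₀ (hu0 1), map_one, one_mul]
  -- the linear algebra
  have hmem : ∀ Y ∈ E u dd J m G n (τ - 1), cq (u 1) * Y ∈ E u dd J m G n τ := by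
    intro Y hY
    have htw := tw_cq u dd n (τ - 1) 1 (u 1) Y (hHu 1) hY.1
    have e : (1 : ℤ) + (τ - 1) = τ := by ring
    rw [e] at htw
    refine ⟨htw, fun j a => ?_⟩
    change Itg k u (cf u dd J m G (cq (u 1) * Y) j a)
    rw [cf_cq]
    exact (Bb k u).mul_mem (itg_X u 1) (hY.2 j a)
  refine chain (E u dd J m G n τ) (E u dd J m G n (τ - 1)) (LinearMap.mulLeft k (cq (u 1)))
    hmem _ fun v hv => ?_
  exact claim _ v hv (by rw [Fintype.card_fin]; exact Nat.lt_succ_self _)

end Pool.Agent.H72.SFU
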